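import Mathlib

/-!
Asymptotic rate of binary codes: the definitions used in the statements.
-/

open Finset Filter

namespace Pool.Agent.H618R3.MW

/-- `C` is a binary code of length `n` with minimum distance at least `d`. -/
def IsCode {n : ℕ} (C : Finset (Fin n → Bool)) (d : ℕ) : Prop :=
  ∀ x ∈ C, ∀ y ∈ C, x ≠ y → d ≤ hammingDist x y

/-- `A(n,d)`, the largest size of a binary code of length `n` with minimum distance at least `d`. -/
noncomputable def A (n d : ℕ) : ℕ :=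
  sSup {m | ∃ C : Finset (Fin n → Bool), IsCode C d ∧ C.card = m}

/-- The asymptotic rate `R(δ) = limsup (1/n) log₂ A(n, ⌈δn⌉)`. -/
noncomputable def R (δ : ℝ) : ℝ :=
  limsup (fun n : ℕ => 1 / (n : ℝ) * Real.logb 2 (A n ⌈δ * n⌉₊)) atTop

/-- binary entropy in bits -/
noncomputable def H2 (x : ℝ) : ℝ := -x * Real.logb 2 x - (1 - x) * Real.logb 2 (1 - x)

/-- `h(x) = H₂(1/2 - √(1-x)/2)` -/
noncomputable def h (x : ℝ) : ℝ := H2 (1 / 2 - 1 / 2 * √(1 - x))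

/-- The bracket in the second McEliece–Rodemich–Rumsey–Welch bound. -/
noncomputable def phi (δ u : ℝ) : ℝ := 1 + h (u ^ 2) - h (u ^ 2 + 2 * δ * u + 2 * δ)

/-- The second McEliece–Rodemich–Rumsey–Welch bound. -/
noncomputable def B (δ : ℝ) : ℝ := sInf (phi δ '' Set.Ioc 0 (1 - 2 * δ))

/-- Spectral data of a pair `ρ₀, ρ₁` of positive semidefinite real matrices with
`tr ρ₀ + tr ρ₁ = 1`: `x, a` and `y, b` are eigenbases and eigenvalues of `ρ₀` and `ρ₁`, and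
`z, c` of `ρ₀ + ρ₁`. -/
structure Data (ι : Type) [Fintype ι] [DecidableEq ι] where
  x : ι → ι → ℝ
  y : ι → ι → ℝ
  z : ι → ι → ℝ
  a : ι → ℝ
  b : ι → ℝ
  c : ι → ℝ
  x_orth : ∀ i j, ∑ k, x i k * x j k = if i = j then 1 else 0
  y_orth : ∀ i j, ∑ k, y i k * y j k = if i = j then 1 else 0
  z_orth : ∀ i j, ∑ k, z i k * z j k = if i = j then 1 else 0
  a_nonneg : ∀ i, 0 ≤ a i
  b_nonneg : ∀ i, 0 ≤ b i
  sum_eq : ∑ i, a i + ∑ i, b i = 1
  diag : ∀ k l, ∑ i, a i * (∑ j, x i j * z k j) * (∑ j, x i j * z l j)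
    + ∑ i, b i * (∑ j, y i j * z k j) * (∑ j, y i j * z l j) = if k = l then c k else 0

variable {ι : Type} [Fintype ι] [DecidableEq ι]

/-- `tr √ρ₀ √ρ₁` -/
noncomputable def Data.T (D : Data ι) : ℝ :=
  ∑ i, ∑ j, √(D.a i * D.b j) * (∑ k, D.x i k * D.y j k) ^ 2

/-- `S(ρ₀) + S(ρ₁) - S(ρ₀+ρ₁) = H(X|Q)` (natural logarithms) -/
noncomputable def Data.H (D : Data ι) : ℝ :=
  ∑ i, Real.negMulLog (D.a i) + ∑ i, Real.negMulLog (D.b i) - ∑ i, Real.negMulLog (D.c i)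

/-- The new bound: the infimum of `H(X|Q)` (in bits) over all classical–quantum states of a bit
`X` and a finite-dimensional system `Q` with `tr √ρ₀ √ρ₁ ≥ 1/2 - δ`. -/
noncomputable def Bq (δ : ℝ) : ℝ :=
  sInf {r | ∃ (m : ℕ) (D : Data (Fin m)), 1 / 2 - δ ≤ D.T ∧ D.H / Real.log 2 = r}

end Pool.Agent.H618R3.MW
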