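import Mathlib
import Pool.Agent.H618R3.MW.Defs
import Pool.Agent.H390R2.LP.Main

/-!
Asymptotic rate of binary codes: the transfer from one-site data to codes.
-/

open Finset Filter

namespace Pool.Agent.H618R3.MW

lemma A_spec (n d : ℕ) : ∃ C : Finset (Fin n → Bool), IsCode C d ∧ C.card = A n d := by
  have hne : ({m | ∃ C : Finset (Fin n → Bool), IsCode C d ∧ C.card = m} : Set ℕ).Nonempty :=
    ⟨0, ∅, by intro x hx; simp at hx, rfl⟩
  have hb : BddAbove ({m | ∃ C : Finset (Fin n → Bool), IsCode C d ∧ C.card = m} : Set ℕ) := by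
    refine ⟨Fintype.card (Fin n → Bool), ?_⟩
    rintro m ⟨C, -, rfl⟩
    exact Finset.card_le_univ C
  exact Nat.sSup_mem hne hb

lemma A_pos (n d : ℕ) : 1 ≤ A n d := by
  have hb : BddAbove ({m | ∃ C : Finset (Fin n → Bool), IsCode C d ∧ C.card = m} : Set ℕ) := by
    refine ⟨Fintype.card (Fin n → Bool), ?_⟩
    rintro m ⟨C, -, rfl⟩
    exact Finset.card_le_univ C
  refine le_csSup hb ⟨{fun _ => false}, ?_, by simp⟩
  intro x hx y hy hxy
  simp at hx hy
  exact absurd (hx.trans hy.symm) hxy

/-- indicator of `true` -/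
def bit (b : Bool) : ℝ := if b then 1 else 0

lemma sum_bit_sq {n : ℕ} (x y : Fin n → Bool) :
    ∑ k, ∑ _i : Unit, (bit (x k) - bit (y k)) ^ 2 = (hammingDist x y : ℝ) := by
  rw [hammingDist, Finset.card_filter]
  push_cast
  refine Finset.sum_congr rfl fun k _ => ?_
  cases x k <;> cases y k <;> simp [bit]

open Pool.Agent.H390R2.LP in
/-- Transfer: one-site data with energy `< δ` give `R(δ) ≤ 1 - (h - S)/log 2`. -/
theorem R_le_of_site {Ω : Type} [Fintype Ω] [DecidableEq Ω] (s : Site Ω Bool) {δ : ℝ}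
    (hE : s.E (fun (_ : Unit) x => bit x) < δ) :
    R δ ≤ 1 - (s.h - s.S) / Real.log 2 := by
  have hlog2 : 0 < Real.log 2 := Real.log_pos one_lt_two
  refine le_of_forall_pos_le_add fun ε' hε' => ?_
  -- choose ε
  obtain ⟨ε, hε, hε1, hε2⟩ : ∃ ε > 0, s.E (fun (_ : Unit) x => bit x) + ε < δ ∧
      ε / Real.log 2 ≤ ε' := by
    refine ⟨min ((δ - s.E (fun (_ : Unit) x => bit x)) / 2) (ε' * Real.log 2),
      lt_min (by linarith) (by positivity), ?_, ?_⟩
    · have := min_le_left ((δ - s.E (fun (_ : Unit) x => bit x)) / 2) (ε' * Real.log 2)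
      linarith
    · rw [div_le_iff₀ hlog2]
      exact min_le_right _ _
  obtain ⟨n0, hn0⟩ := iid Ω Bool Unit s (fun _ x => bit x) ε hε
  have hco : IsCoboundedUnder (· ≤ ·) atTop
      (fun n : ℕ => 1 / (n : ℝ) * Real.logb 2 (A n ⌈δ * n⌉₊)) := by
    refine IsBoundedUnder.isCoboundedUnder_le ⟨0, ?_⟩
    rw [eventually_map]
    refine Eventually.of_forall fun n => ?_
    have h1 : (1 : ℝ) ≤ A n ⌈δ * n⌉₊ := by exact_mod_cast A_pos _ _
    have := Real.logb_nonneg one_lt_two h1
    positivity
  refine limsup_le_of_le hco ?_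
  filter_upwards [eventually_ge_atTop n0, eventually_gt_atTop 0] with n hn hnpos
  have hnR : (0 : ℝ) < n := by exact_mod_cast hnpos
  obtain ⟨C, hC, hCcard⟩ := A_spec n ⌈δ * n⌉₊
  set M := A n ⌈δ * n⌉₊ with hM
  have hMpos : 0 < M := A_pos _ _
  have hMR : (0 : ℝ) < M := by exact_mod_cast hMpos
  have hlt : (M : ℝ) * Real.exp (n * (s.h - s.S - ε)) < 2 ^ n := by
    by_contra hcon
    push Not at hcon
    have key := hn0 n hn (Fin n → Bool)
      (fun v => C.image fun c => fun k => xor (v k) (c k)) M (δ * n) hMpos ?_ ?_ ?_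
    · have : δ * n ≤ n * (s.E (fun (_ : Unit) x => bit x) + ε) := key
      nlinarith
    · intro x
      rw [← hCcard]
      refine Finset.card_bij' (fun v _ => fun k => xor (v k) (x k))
        (fun c _ => fun k => xor (x k) (c k)) ?_ ?_ ?_ ?_
      · intro v hv
        rw [Finset.mem_filter] at hv
        obtain ⟨c, hc, hcx⟩ := Finset.mem_image.mp hv.2
        have : (fun k => xor (v k) (x k)) = c := by
          funext k
          rw [← hcx]
          simp
        rw [this]; exact hc
      · intro c hc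
        rw [Finset.mem_filter]
        refine ⟨Finset.mem_univ _, Finset.mem_image.mpr ⟨c, hc, ?_⟩⟩
        funext k
        simp
      · intro v _
        funext k
        simp [Bool.xor_comm]
      · intro c _
        funext k
        simp [Bool.xor_comm]
    · intro v x hx y hy hxy
      rw [sum_bit_sq]
      obtain ⟨c, hc, rfl⟩ := Finset.mem_image.mp hx
      obtain ⟨c', hc', rfl⟩ := Finset.mem_image.mp hy
      have hne : c ≠ c' := by rintro rfl; exact hxy rfl
      have h1 := hC c hc c' hc' hne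
      have h2 : hammingDist (fun k => xor (v k) (c k)) (fun k => xor (v k) (c' k))
          = hammingDist c c' := by
        unfold hammingDist
        congr 1
        ext k
        simp
      rw [h2]
      calc δ * n ≤ (⌈δ * n⌉₊ : ℝ) := Nat.le_ceil _
        _ ≤ _ := by exact_mod_cast h1
    · have : (Fintype.card (Fin n → Bool) : ℝ) = 2 ^ n := by simp
      rw [this]
      exact hcon
  have h3 : Real.log M + n * (s.h - s.S - ε) < n * Real.log 2 := by
    have h4 := Real.log_lt_log (by positivity) hlt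
    rw [Real.log_mul hMR.ne' (Real.exp_pos _).ne', Real.log_exp, Real.log_pow] at h4
    exact h4
  have h5 : 1 / (n : ℝ) * Real.logb 2 M = Real.log M / (n * Real.log 2) := by
    rw [Real.logb]; field_simp
  rw [h5, div_le_iff₀ (by positivity)]
  have h6 : (1 - (s.h - s.S) / Real.log 2 + ε') * (n * Real.log 2)
      = n * Real.log 2 - n * (s.h - s.S) + ε' * (n * Real.log 2) := by
    field_simp
  rw [h6]
  have h7 : ε ≤ ε' * Real.log 2 := (div_le_iff₀ hlog2).mp hε2
  nlinarith

end Pool.Agent.H618R3.MW
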