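import Mathlib
import Pool.Agent.H618R3.MW.Codes

/-!
The one-letter quantum bound: for a classical–quantum state of a bit `X` and a finite-dimensional
(real) quantum system `Q`, given by spectral data.
-/

open Finset Filter

namespace Pool.Agent.H618R3.MW

open Pool.Agent.H390R2.LP

variable {ι : Type} [Fintype ι] [DecidableEq ι]

/-- sign of `(s, p)` -/
def sg (s p : Bool) : ℝ := if s && p then -1 else 1

lemma sg_sq (s p : Bool) : sg s p * sg s p = 1 := by cases s <;> cases p <;> simp [sg]

def Data.v (D : Data ι) (s : Bool) : ι → ι → ℝ := if s then D.y else D.x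

lemma Data.v_orth (D : Data ι) (s : Bool) (i j : ι) :
    ∑ k, D.v s i k * D.v s j k = if i = j then 1 else 0 := by
  cases s
  · exact D.x_orth i j
  · exact D.y_orth i j

lemma sqrt_half_sq : (√(1/2 : ℝ)) * √(1/2) = 1 / 2 := Real.mul_self_sqrt (by norm_num)

lemma Data.c_eq (D : Data ι) (k : ι) : D.c k = ∑ i, D.a i * (∑ j, D.x i j * D.z k j) ^ 2
    + ∑ i, D.b i * (∑ j, D.y i j * D.z k j) ^ 2 := by
  have := D.diag k k
  rw [if_pos rfl] at this
  rw [← this]
  congr 1 <;> exact Finset.sum_congr rfl fun i _ => by ring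

/-- Parseval for a family `z` orthonormal in `ℝ^ι` -/
lemma parseval (z : ι → ι → ℝ) (hz : ∀ i j, ∑ k, z i k * z j k = if i = j then 1 else 0)
    (v : ι → ℝ) : ∑ k, (∑ j, v j * z k j) ^ 2 = ∑ j, v j ^ 2 := by
  have h1 : (Matrix.of z) * (Matrix.of z).transpose = 1 := by
    ext i j
    rw [Matrix.mul_apply, Matrix.one_apply]
    simpa using hz i j
  have h2 : (Matrix.of z).transpose * (Matrix.of z) = 1 := mul_eq_one_comm.mp h1
  have h3 : ∀ i j, ∑ k, z k i * z k j = if i = j then 1 else 0 := by
    intro i j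
    have := congrFun (congrFun h2 i) j
    rw [Matrix.mul_apply, Matrix.one_apply] at this
    simpa using this
  calc ∑ k, (∑ j, v j * z k j) ^ 2 = ∑ k, ∑ i, ∑ j, v i * v j * (z k i * z k j) := by
        refine Finset.sum_congr rfl fun k _ => ?_
        rw [sq, Finset.sum_mul_sum]
        refine Finset.sum_congr rfl fun i _ => Finset.sum_congr rfl fun j _ => by ring
    _ = ∑ i, ∑ j, v i * v j * ∑ k, z k i * z k j := by
        rw [Finset.sum_comm]
        refine Finset.sum_congr rfl fun i _ => ?_
        rw [Finset.sum_comm]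
        refine Finset.sum_congr rfl fun j _ => ?_
        rw [Finset.mul_sum]
    _ = ∑ j, v j ^ 2 := by
        refine Finset.sum_congr rfl fun i _ => ?_
        simp only [h3]
        simp [sq]

lemma Data.c_nonneg (D : Data ι) (k : ι) : 0 ≤ D.c k := by
  rw [D.c_eq]
  exact add_nonneg (Finset.sum_nonneg fun i _ => mul_nonneg (D.a_nonneg i) (sq_nonneg _))
    (Finset.sum_nonneg fun i _ => mul_nonneg (D.b_nonneg i) (sq_nonneg _))

lemma Data.c_sum (D : Data ι) : ∑ k, D.c k = 1 := by
  simp only [D.c_eq]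
  rw [Finset.sum_add_distrib, Finset.sum_comm, Finset.sum_comm (f := fun k i => D.b i * _)]
  simp only [← Finset.mul_sum]
  rw [← D.sum_eq]
  congr 1
  · refine Finset.sum_congr rfl fun i _ => ?_
    rw [parseval D.z D.z_orth]
    have := D.x_orth i i
    rw [if_pos rfl] at this
    simp only [sq, this, mul_one]
  · refine Finset.sum_congr rfl fun i _ => ?_
    rw [parseval D.z D.z_orth]
    have := D.y_orth i i
    rw [if_pos rfl] at this
    simp only [sq, this, mul_one]

/-- The one-site state `½ (1 + (-1)^s X) ⊗ ρ_s` -/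
noncomputable def Data.site (D : Data ι) : Site (Bool × ι) Bool where
  pos := fun ω => ω.1
  u := fun α ω => √(1/2) * sg α.1 ω.1 * D.v α.1 α.2 ω.2
  w := fun α ω => if α.1 = ω.1 then D.z α.2 ω.2 else 0
  lam := fun α => if α.1 then D.b α.2 else D.a α.2
  g := fun α => D.c α.2 / 2
  lab := fun α => α.1
  u_orth := by
    rintro ⟨s, i⟩ ⟨s', i'⟩
    rw [Fintype.sum_prod_type]
    have h1 : ∀ p : Bool, ∑ j, (√(1/2) * sg s p * D.v s i j) * (√(1/2) * sg s' p * D.v s' i' j)
        = 1 / 2 * (sg s p * sg s' p) * ∑ j, D.v s i j * D.v s' i' j := by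
      intro p
      rw [Finset.mul_sum]
      refine Finset.sum_congr rfl fun j _ => ?_
      linear_combination (sg s p * sg s' p * D.v s i j * D.v s' i' j) * sqrt_half_sq
    simp only [h1]
    by_cases hs : s = s'
    · subst hs
      simp only [sg_sq, D.v_orth]
      by_cases hi : i = i'
      · simp [hi]
      · simp [hi]
    · rw [if_neg (by simp [hs])]
      have : sg s true * sg s' true = - (sg s false * sg s' false) := by
        cases s <;> cases s' <;> simp_all [sg]
      rw [Fintype.sum_bool, this]; ring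
  w_orth := by
    rintro ⟨s, i⟩ ⟨s', i'⟩
    rw [Fintype.sum_prod_type]
    by_cases hs : s = s'
    · subst hs
      have h1 : ∀ p : Bool, ∑ j, (if s = p then D.z i j else 0) * (if s = p then D.z i' j else 0)
          = if s = p then (if i = i' then 1 else 0) else 0 := by
        intro p
        by_cases hp : s = p
        · simp only [hp, if_true]
          exact D.z_orth i i'
        · simp [hp]
      simp only [h1]
      simp
    · rw [if_neg (by simp [hs])]
      refine Finset.sum_eq_zero fun p _ => Finset.sum_eq_zero fun j _ => ?_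
      by_cases hp : s = p
      · have : s' ≠ p := fun h => hs (hp.trans h.symm)
        simp [this]
      · simp [hp]
  lam_nonneg := by
    rintro ⟨s, i⟩
    cases s
    · exact D.a_nonneg i
    · exact D.b_nonneg i
  lam_sum := by
    rw [Fintype.sum_prod_type, Fintype.sum_bool]
    simp only [if_true, Bool.false_eq_true, if_false]
    rw [add_comm]; exact D.sum_eq
  w_supp := by
    rintro ⟨p, k⟩ ⟨q, j⟩ h
    exact if_neg (fun h' => h h'.symm)
  w_diag := by
    rintro ⟨p, k⟩ ⟨p', l⟩ h
    simp only at h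
    subst h
    have h1 : ∀ s i k, ∑ ω : Bool × ι, (√(1/2) * sg s ω.1 * D.v s i ω.2) *
        (if p = ω.1 then D.z k ω.2 else 0) = √(1/2) * sg s p * ∑ j, D.v s i j * D.z k j := by
      intro s i k
      rw [Fintype.sum_prod_type]
      have : ∀ q : Bool, ∑ j, (√(1/2) * sg s q * D.v s i j) * (if p = q then D.z k j else 0)
          = if p = q then √(1/2) * sg s p * ∑ j, D.v s i j * D.z k j else 0 := by
        intro q
        by_cases hq : p = q
        · subst hq
          simp only [if_true]
          rw [Finset.mul_sum]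
          exact Finset.sum_congr rfl fun j _ => by ring
        · simp [hq]
      simp only [this]
      simp
    have h2 : ∀ s i, (√(1/2) * sg s p * ∑ j, D.v s i j * D.z k j) *
        (√(1/2) * sg s p * ∑ j, D.v s i j * D.z l j)
        = 1 / 2 * ((∑ j, D.v s i j * D.z k j) * ∑ j, D.v s i j * D.z l j) := by
      intro s i
      calc _ = (√(1/2) * √(1/2)) * (sg s p * sg s p) *
            ((∑ j, D.v s i j * D.z k j) * ∑ j, D.v s i j * D.z l j) := by ring
        _ = _ := by rw [sqrt_half_sq, sg_sq]; ring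
    have h3 : ∀ α : Bool × ι, (if α.1 then D.b α.2 else D.a α.2) *
        (∑ ω : Bool × ι, (√(1/2) * sg α.1 ω.1 * D.v α.1 α.2 ω.2) *
          (if p = ω.1 then D.z k ω.2 else 0)) *
        (∑ ω : Bool × ι, (√(1/2) * sg α.1 ω.1 * D.v α.1 α.2 ω.2) *
          (if p = ω.1 then D.z l ω.2 else 0))
        = (if α.1 then D.b α.2 else D.a α.2) *
          (1 / 2 * ((∑ j, D.v α.1 α.2 j * D.z k j) * ∑ j, D.v α.1 α.2 j * D.z l j)) := by
      intro α
      rw [h1, h1, mul_assoc, h2]
    simp only [h3]
    rw [Fintype.sum_prod_type, Fintype.sum_bool]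
    simp only [if_true, Bool.false_eq_true, if_false, Data.v]
    have h4 : (if ((p, k) : Bool × ι) = (p, l) then D.c k / 2 else 0)
        = 1 / 2 * (if k = l then D.c k else 0) := by
      by_cases hkl : k = l
      · simp [hkl]; ring
      · simp [hkl]
    rw [h4, ← D.diag k l, mul_add, Finset.mul_sum, Finset.mul_sum, add_comm]
    congr 1 <;> exact Finset.sum_congr rfl fun i _ => by ring

lemma Data.site_S (D : Data ι) : D.site.S = ∑ i, Real.negMulLog (D.a i)
    + ∑ i, Real.negMulLog (D.b i) := by
  simp only [Site.S, Data.site]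
  rw [Fintype.sum_prod_type, Fintype.sum_bool]
  simp only [if_true, Bool.false_eq_true, if_false]
  rw [add_comm]

lemma negMulLog_half {x : ℝ} (hx : 0 ≤ x) :
    Real.negMulLog (x / 2) = x / 2 * Real.log 2 + Real.negMulLog x / 2 := by
  rcases hx.eq_or_lt with h | h
  · simp [← h]
  · rw [Real.negMulLog, Real.negMulLog, Real.log_div h.ne' two_ne_zero]; ring

lemma Data.site_h (D : Data ι) : D.site.h = Real.log 2 + ∑ i, Real.negMulLog (D.c i) := by
  simp only [Site.h, Data.site]
  rw [Fintype.sum_prod_type, Fintype.sum_bool]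
  have : ∑ i, Real.negMulLog (D.c i / 2) = 1 / 2 * Real.log 2
      + (∑ i, Real.negMulLog (D.c i)) / 2 := by
    simp only [negMulLog_half (D.c_nonneg _)]
    rw [Finset.sum_add_distrib, ← Finset.sum_mul, ← Finset.sum_div, ← Finset.sum_div, D.c_sum]
  rw [this]; ring

lemma Data.site_E (D : Data ι) : D.site.E (fun (_ : Unit) x => bit x) = 1 / 2 - D.T := by
  have hin : ∀ α β : Bool × ι, ∑ ω : Bool × ι, (√(1/2) * sg α.1 ω.1 * D.v α.1 α.2 ω.2) * bit ω.1 *
      (√(1/2) * sg β.1 ω.1 * D.v β.1 β.2 ω.2) = 1 / 2 * (sg α.1 true * sg β.1 true) *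
        ∑ j, D.v α.1 α.2 j * D.v β.1 β.2 j := by
    intro α β
    rw [Fintype.sum_prod_type, Fintype.sum_bool]
    simp only [bit, if_true, Bool.false_eq_true, if_false, mul_zero, zero_mul,
      Finset.sum_const_zero, add_zero, mul_one]
    rw [Finset.mul_sum]
    refine Finset.sum_congr rfl fun j _ => ?_
    linear_combination (sg α.1 true * sg β.1 true * D.v α.1 α.2 j * D.v β.1 β.2 j) * sqrt_half_sq
  have hsq : ∀ α β : Bool × ι, (∑ ω : Bool × ι, (√(1/2) * sg α.1 ω.1 * D.v α.1 α.2 ω.2) * bit ω.1 *
      (√(1/2) * sg β.1 ω.1 * D.v β.1 β.2 ω.2)) ^ 2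
        = 1 / 4 * (∑ j, D.v α.1 α.2 j * D.v β.1 β.2 j) ^ 2 := by
    intro α β
    rw [hin]
    have h1 := sg_sq α.1 true
    have h2 := sg_sq β.1 true
    calc _ = 1 / 4 * (sg α.1 true * sg α.1 true) * (sg β.1 true * sg β.1 true) *
          (∑ j, D.v α.1 α.2 j * D.v β.1 β.2 j) ^ 2 := by ring
      _ = _ := by rw [h1, h2]; ring
  have hdiag : ∀ α : Bool × ι, ∑ ω : Bool × ι, (√(1/2) * sg α.1 ω.1 * D.v α.1 α.2 ω.2) ^ 2 *
      bit ω.1 ^ 2 = 1 / 2 := by
    intro α
    have h1 := hin α α
    rw [sg_sq, D.v_orth, if_pos rfl, mul_one, mul_one] at h1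
    refine Eq.trans ?_ h1
    refine Finset.sum_congr rfl fun ω _ => ?_
    have : bit ω.1 ^ 2 = bit ω.1 := by cases ω.1 <;> simp [bit]
    rw [this]; ring
  have hss : ∀ s : Bool, ∀ l : ι → ℝ, (∀ i, 0 ≤ l i) →
      ∑ i, ∑ j, √(l i * l j) * (1 / 4 * (∑ k, D.v s i k * D.v s j k) ^ 2)
        = 1 / 4 * ∑ i, l i := by
    intro s l hl
    rw [Finset.mul_sum]
    refine Finset.sum_congr rfl fun i _ => ?_
    simp only [D.v_orth]
    rw [Finset.sum_eq_single i]
    · simp [Real.sqrt_mul_self (hl i)]; ring
    · intro j _ hj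
      simp [Ne.symm hj]
    · intro h; exact absurd (Finset.mem_univ _) h
  simp only [Site.E, Data.site, Finset.univ_unique, Finset.sum_singleton]
  simp only [hsq, hdiag]
  rw [← Finset.sum_mul]
  have hls : ∑ α : Bool × ι, (if α.1 then D.b α.2 else D.a α.2) = 1 := by
    rw [Fintype.sum_prod_type, Fintype.sum_bool]
    simp only [if_true, Bool.false_eq_true, if_false]
    rw [add_comm]; exact D.sum_eq
  rw [hls]
  simp only [Fintype.sum_prod_type, Fintype.sum_bool, if_true, Bool.false_eq_true, if_false]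
  simp only [Finset.sum_add_distrib]
  rw [hss true D.b D.b_nonneg, hss false D.a D.a_nonneg]
  have hT1 : ∑ i, ∑ j, √(D.a i * D.b j) * (1 / 4 * (∑ k, D.v false i k * D.v true j k) ^ 2)
      = 1 / 4 * D.T := by
    rw [Data.T, Finset.mul_sum]
    refine Finset.sum_congr rfl fun i _ => ?_
    rw [Finset.mul_sum]
    refine Finset.sum_congr rfl fun j _ => ?_
    simp only [Data.v, if_true, Bool.false_eq_true, if_false]
    ring
  have hT2 : ∑ i, ∑ j, √(D.b i * D.a j) * (1 / 4 * (∑ k, D.v true i k * D.v false j k) ^ 2)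
      = 1 / 4 * D.T := by
    rw [← hT1, Finset.sum_comm]
    refine Finset.sum_congr rfl fun i _ => Finset.sum_congr rfl fun j _ => ?_
    rw [mul_comm (D.b j)]
    congr 2
    congr 1
    exact Finset.sum_congr rfl fun k _ => by ring
  rw [hT1, hT2]
  have := D.sum_eq
  linarith

/-- One-letter bound, strict form. -/
theorem R_le_of_data_lt (D : Data ι) {δ : ℝ} (hT : 1 / 2 - δ < D.T) :
    R δ ≤ D.H / Real.log 2 := by
  have hlog2 : 0 < Real.log 2 := Real.log_pos one_lt_two
  have h1 := R_le_of_site D.site (δ := δ) (by rw [D.site_E]; linarith)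
  refine h1.trans (le_of_eq ?_)
  rw [D.site_h, D.site_S, Data.H]
  field_simp
  ring

/-- extend an orthogonal matrix by a `1` -/
def ext (M : ι → ι → ℝ) : Option ι → Option ι → ℝ
  | none, none => 1
  | none, some _ => 0
  | some _, none => 0
  | some i, some j => M i j

/-- extend a vector by an entry -/
def extv (t : ℝ) (r : ℝ) (a : ι → ℝ) : Option ι → ℝ
  | none => r
  | some i => t * a i

lemma ext_orth (M : ι → ι → ℝ) (hM : ∀ i j, ∑ k, M i k * M j k = if i = j then 1 else 0)
    (i j : Option ι) : ∑ k, ext M i k * ext M j k = if i = j then 1 else 0 := by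
  rw [Fintype.sum_option]
  cases i <;> cases j <;> simp [ext, hM]

/-- direct sum of `(1-t) ρ` with a one-dimensional block of weight `t/2` on both sides -/
noncomputable def Data.mix (D : Data ι) (t : ℝ) (ht0 : 0 ≤ t) (ht1 : t ≤ 1) : Data (Option ι) where
  x := ext D.x
  y := ext D.y
  z := ext D.z
  a := extv (1 - t) (t / 2) D.a
  b := extv (1 - t) (t / 2) D.b
  c := extv (1 - t) t D.c
  x_orth := ext_orth _ D.x_orth
  y_orth := ext_orth _ D.y_orth
  z_orth := ext_orth _ D.z_orth
  a_nonneg := by
    intro i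
    cases i with
    | none => simp only [extv]; linarith
    | some i => exact mul_nonneg (by linarith) (D.a_nonneg i)
  b_nonneg := by
    intro i
    cases i with
    | none => simp only [extv]; linarith
    | some i => exact mul_nonneg (by linarith) (D.b_nonneg i)
  sum_eq := by
    rw [Fintype.sum_option, Fintype.sum_option]
    simp only [extv, ← Finset.mul_sum]
    have := D.sum_eq
    linear_combination (1 - t) * this
  diag := by
    intro k l
    simp only [Fintype.sum_option]
    cases k with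
    | none =>
      cases l with
      | none => simp [ext, extv]
      | some l => simp [ext, extv]
    | some k =>
      cases l with
      | none => simp [ext, extv]
      | some l =>
        have := D.diag k l
        simp only [ext, extv, mul_zero, zero_mul, Finset.sum_const_zero, add_zero, zero_add,
          Option.some.injEq]
        have h2 : (if k = l then (1 - t) * D.c k else 0) = (1 - t) * (if k = l then D.c k else 0) := by
          split_ifs <;> simp
        rw [h2, ← this, mul_add, Finset.mul_sum, Finset.mul_sum]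
        congr 1 <;> exact Finset.sum_congr rfl fun i _ => by ring

lemma Data.mix_T (D : Data ι) (t : ℝ) (ht0 : 0 ≤ t) (ht1 : t ≤ 1) :
    (D.mix t ht0 ht1).T = t / 2 + (1 - t) * D.T := by
  simp only [Data.T, Data.mix, Fintype.sum_option]
  simp only [ext, extv, mul_zero, zero_mul, Finset.sum_const_zero, add_zero, zero_add, mul_one,
    ne_eq, OfNat.ofNat_ne_zero, not_false_eq_true, zero_pow, one_pow]
  rw [Real.sqrt_mul_self (by linarith), Finset.mul_sum]
  congr 1
  refine Finset.sum_congr rfl fun i _ => ?_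
  rw [Finset.mul_sum]
  refine Finset.sum_congr rfl fun j _ => ?_
  have : (1 - t) * D.a i * ((1 - t) * D.b j) = (1 - t) ^ 2 * (D.a i * D.b j) := by ring
  rw [this, Real.sqrt_mul (sq_nonneg _), Real.sqrt_sq (by linarith)]
  ring

lemma Data.mix_H (D : Data ι) (t : ℝ) (ht0 : 0 ≤ t) (ht1 : t ≤ 1) :
    (D.mix t ht0 ht1).H = t * Real.log 2 + (1 - t) * D.H := by
  have h1 : ∀ a : ι → ℝ, ∑ i, Real.negMulLog ((1 - t) * a i)
      = Real.negMulLog (1 - t) * ∑ i, a i + (1 - t) * ∑ i, Real.negMulLog (a i) := by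
    intro a
    simp only [Real.negMulLog_mul]
    rw [Finset.sum_add_distrib, Finset.mul_sum, Finset.mul_sum]
    congr 1
    exact Finset.sum_congr rfl fun i _ => by ring
  simp only [Data.H, Data.mix, Fintype.sum_option, extv, h1, negMulLog_half ht0, D.c_sum]
  have := D.sum_eq
  linear_combination Real.negMulLog (1 - t) * this

/-- One-letter bound: for every classical–quantum state of a bit `X` and a system `Q` with
`tr √ρ₀ √ρ₁ ≥ 1/2 - δ` one has `R(δ) ≤ H(X|Q)`. -/
theorem R_le_of_data (D : Data ι) {δ : ℝ} (hδ : 0 < δ) (hT : 1 / 2 - δ ≤ D.T) :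
    R δ ≤ D.H / Real.log 2 := by
  have hlog2 : 0 < Real.log 2 := Real.log_pos one_lt_two
  rw [le_div_iff₀ hlog2]
  by_contra hcon
  push Not at hcon
  set g := R δ * Real.log 2 - D.H with hg
  have hgpos : 0 < g := by linarith
  set K := |Real.log 2 - D.H| + 1 with hK
  have hKpos : 0 < K := by positivity
  obtain ⟨t, ht0, ht1, ht2⟩ : ∃ t > 0, t ≤ 1 ∧ t * K < g := by
    refine ⟨min 1 (g / (2 * K)), lt_min one_pos (by positivity), min_le_left _ _, ?_⟩
    calc min 1 (g / (2 * K)) * K ≤ g / (2 * K) * K :=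
          mul_le_mul_of_nonneg_right (min_le_right _ _) hKpos.le
      _ = g / 2 := by field_simp
      _ < g := by linarith
  have h1 := R_le_of_data_lt (D.mix t ht0.le ht1) (δ := δ) (by
    rw [D.mix_T]
    nlinarith)
  rw [le_div_iff₀ hlog2, D.mix_H] at h1
  have h2 : t * (Real.log 2 - D.H) ≤ t * K := by
    refine mul_le_mul_of_nonneg_left ?_ ht0.le
    have := le_abs_self (Real.log 2 - D.H)
    linarith
  nlinarith

end Pool.Agent.H618R3.MW
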