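import Mathlib
import Pool.Agent.H618R3.MW.CQ
import Pool.Agent.H232R2.LP.SiteOfData

/-!
Explicit perturbed classical–quantum states in dimension three.
-/

open Finset Filter Topology

namespace Pool.Agent.H618R3.MW

open Pool.Agent.H390R2.LP

lemma H2_eq (x : ℝ) : H2 x = (Real.negMulLog x + Real.negMulLog (1 - x)) / Real.log 2 := by
  simp only [H2, Real.negMulLog, Real.logb]
  ring

/-- the explicit perturbed states -/
theorem exists_explicit {A C l1 l2 η : ℝ} (hA : 0 ≤ A) (hC : 0 ≤ C) (hAC : A + C = 1)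
    (hl1 : 0 ≤ l1) (hl2 : 0 ≤ l2) (hl : l1 + l2 = 1) (hη : 0 ≤ η) :
    ∃ D : Data (Fin 3),
      D.T = 1 / 2 - 2 * (l1 * C / (1 + η) + l2 * A - (l1 * C ^ 2 / (1 + η) ^ 2
        + 2 * √(l1 * l2) * (A * C) / (1 + η) + l2 * A ^ 2)) ∧
      D.H = Real.log 2 + (Real.negMulLog l1 + Real.negMulLog l2)
        - (Real.negMulLog (gp (l1 * A / (1 + η) + l2 * C) (l1 * √A * √η / (1 + η))
          (l1 * η / (1 + η)))
      + Real.negMulLog (gm (l1 * A / (1 + η) + l2 * C) (l1 * √A * √η / (1 + η))
          (l1 * η / (1 + η)))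
      + Real.negMulLog (l1 * C / (1 + η) + l2 * A)) := by
  have hν : 0 < 1 + η := by linarith
  have hsA : √A ^ 2 = A := Real.sq_sqrt hA
  have hsC : √C ^ 2 = C := Real.sq_sqrt hC
  have hsη : √η ^ 2 = η := Real.sq_sqrt hη
  have hn0 : √(1 + η) ≠ 0 := (Real.sqrt_pos.mpr hν).ne'
  have hn : √(1 + η) ^ 2 = 1 + η := Real.sq_sqrt hν.le
  set α := √A with hα
  set γ := √C with hγ
  set τ := √η with hτ
  set n := √(1 + η) with hndef
  have hA' : A = α ^ 2 := hsA.symm
  have hC' : C = γ ^ 2 := hsC.symm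
  have hη' : η = τ ^ 2 := hsη.symm
  have hn' : 1 + η = n ^ 2 := hn.symm
  have hag : α ^ 2 + γ ^ 2 = 1 := by rw [hsA, hsC]; exact hAC
  have hnt : n ^ 2 = 1 + τ ^ 2 := by rw [hn, hsη]
  obtain ⟨W, hW1, hW2⟩ := exists_rot (l1 * A / (1 + η) + l2 * C) (l1 * α * τ / (1 + η))
    (l1 * η / (1 + η))
  have w00 := hW1 0 0
  have w01 := hW1 0 1
  have w10 := hW1 1 0
  have w11 := hW1 1 1
  have v00 := hW2 0 0
  have v01 := hW2 0 1
  have v10 := hW2 1 0
  have v11 := hW2 1 1
  simp only [if_true, Fin.isValue, zero_ne_one, one_ne_zero, if_false] at w00 w01 w10 w11 v00 v01 v10 v11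
  rw [hn', hA', hC', hη'] at v00 v01 v10 v11
  rw [hn', hA', hC', hη']
  refine ⟨{ x := ![![α / n, γ / n, τ / n], ![-γ, α, 0], ![-(α * τ) / n, -(γ * τ) / n, 1 / n]]
            y := ![![α / n, -γ / n, τ / n], ![γ, α, 0], ![-(α * τ) / n, (γ * τ) / n, 1 / n]]
            z := ![![W 0 0, 0, W 0 1], ![0, 1, 0], ![W 1 0, 0, W 1 1]]
            a := ![l1 / 2, l2 / 2, 0]
            b := ![l1 / 2, l2 / 2, 0]
            c := ![gp (l1 * α ^ 2 / n ^ 2 + l2 * γ ^ 2) (l1 * α * τ / n ^ 2) (l1 * τ ^ 2 / n ^ 2),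
              l1 * γ ^ 2 / n ^ 2 + l2 * α ^ 2,
              gm (l1 * α ^ 2 / n ^ 2 + l2 * γ ^ 2) (l1 * α * τ / n ^ 2) (l1 * τ ^ 2 / n ^ 2)]
            x_orth := ?_
            y_orth := ?_
            z_orth := ?_
            a_nonneg := ?_
            b_nonneg := ?_
            sum_eq := ?_
            diag := ?_ }, ?_, ?_⟩
  · intro i j
    fin_cases i <;> fin_cases j <;> simp [Fin.sum_univ_three] <;> field_simp <;> ring_nf <;>
      first
      | linear_combination hag
      | linear_combination hag - hnt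
      | linear_combination (-τ) * hag
      | linear_combination τ ^ 2 * hag - hnt
  · intro i j
    fin_cases i <;> fin_cases j <;> simp [Fin.sum_univ_three] <;> field_simp <;> ring_nf <;>
      first
      | linear_combination hag
      | linear_combination hag - hnt
      | linear_combination (-τ) * hag
      | linear_combination τ ^ 2 * hag - hnt
  · intro i j
    fin_cases i <;> fin_cases j <;> simp [Fin.sum_univ_three] <;> assumption
  · intro i; fin_cases i <;> simp <;> linarith
  · intro i; fin_cases i <;> simp <;> linarith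
  · simp [Fin.sum_univ_three]; linarith
  · intro k l
    fin_cases k <;> fin_cases l <;> simp [Fin.sum_univ_three]
    · refine Eq.trans ?_ v00; field_simp; ring
    · field_simp; ring
    · field_simp at v01 ⊢; linear_combination v01
    · field_simp; ring
    · field_simp; ring
    · field_simp; ring
    · field_simp at v10 ⊢; linear_combination v10
    · field_simp; ring
    · refine Eq.trans ?_ v11; field_simp; ring
  · have e1 : √(l1 / 2 * (l1 / 2)) = l1 / 2 := Real.sqrt_mul_self (by linarith)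
    have e2 : √(l2 / 2 * (l2 / 2)) = l2 / 2 := Real.sqrt_mul_self (by linarith)
    have e3 : √(l1 / 2 * (l2 / 2)) = √(l1 * l2) / 2 := by
      rw [show l1 / 2 * (l2 / 2) = (1 / 2) ^ 2 * (l1 * l2) by ring,
        Real.sqrt_mul (by positivity), Real.sqrt_sq (by norm_num)]
      ring
    have e4 : √(l2 / 2 * (l1 / 2)) = √(l1 * l2) / 2 := by rw [mul_comm, e3]
    have k1 : (α / n * (α / n) + γ / n * (-γ / n) + τ / n * (τ / n)) ^ 2
        = 1 - 4 * (γ ^ 2 / n ^ 2 - γ ^ 4 / n ^ 4) := by
      have : τ ^ 2 = n ^ 2 - α ^ 2 - γ ^ 2 := by linarith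
      field_simp
      rw [this]
      ring
    have k4 : (-γ * γ + α * α) ^ 2 = 1 - 4 * (α ^ 2 - α ^ 4) := by
      have : γ ^ 2 = 1 - α ^ 2 := by linarith
      calc (-γ * γ + α * α) ^ 2 = (α ^ 2 - γ ^ 2) ^ 2 := by ring
        _ = _ := by rw [this]; ring
    simp only [Data.T, Fin.sum_univ_three, Matrix.cons_val_zero, Matrix.cons_val_one,
      Matrix.cons_val, mul_zero, zero_mul, Real.sqrt_zero, add_zero, e1, e2, e3, e4]
    rw [k1, k4]
    have hsum : l2 = 1 - l1 := by linarith
    field_simp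
    rw [hsum]
    ring
  · simp only [Data.H, Fin.sum_univ_three, Matrix.cons_val_zero, Matrix.cons_val_one,
      Matrix.cons_val, Real.negMulLog_zero, add_zero, negMulLog_half hl1, negMulLog_half hl2]
    linear_combination Real.log 2 * hl

end Pool.Agent.H618R3.MW
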