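import Mathlib
import Pool.Agent.H618R3.MW.Pert

/-!
Strict improvement of every value of the bracket in the second MRRW bound.
-/

open Finset Filter Topology

namespace Pool.Agent.H618R3.MW

open Pool.Agent.H390R2.LP

noncomputable def L1 (U : ℝ) : ℝ := (1 + √(1 - U ^ 2)) / 2
noncomputable def L2 (U : ℝ) : ℝ := (1 - √(1 - U ^ 2)) / 2

lemma L1_add_L2 (U : ℝ) : L1 U + L2 U = 1 := by unfold L1 L2; ring

lemma L1_mul_L2 {U : ℝ} (h1 : U ^ 2 ≤ 1) : L1 U * L2 U = U ^ 2 / 4 := by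
  have := Real.sq_sqrt (show 0 ≤ 1 - U ^ 2 by linarith)
  unfold L1 L2
  linear_combination -this / 4

lemma L1_pos (U : ℝ) : 0 < L1 U := by
  have := Real.sqrt_nonneg (1 - U ^ 2)
  unfold L1
  linarith

lemma sqrt_le_one' (U : ℝ) : √(1 - U ^ 2) ≤ 1 := by
  exact Real.sqrt_le_one.mpr (by nlinarith [sq_nonneg U])

lemma L2_nonneg (U : ℝ) : 0 ≤ L2 U := by
  have := sqrt_le_one' U
  unfold L2
  linarith

lemma L1_le_one (U : ℝ) : L1 U ≤ 1 := by
  have := L2_nonneg U
  have := L1_add_L2 U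
  linarith

lemma L2_pos {U : ℝ} (h0 : 0 < U) (h1 : U ^ 2 ≤ 1) : 0 < L2 U := by
  have h := L1_mul_L2 h1
  have h2 : 0 < L1 U * L2 U := by rw [h]; positivity
  exact (mul_pos_iff_of_pos_left (L1_pos U)).mp h2

lemma sqrt_L1L2 {U : ℝ} (h0 : 0 ≤ U) (h1 : U ^ 2 ≤ 1) : √(L1 U * L2 U) = U / 2 := by
  rw [L1_mul_L2 h1, show U ^ 2 / 4 = (U / 2) ^ 2 by ring, Real.sqrt_sq (by linarith)]

lemma gm_mul_gp (p q s : ℝ) : gm p q s * gp p q s = p * s - q ^ 2 := by
  have := Real.sq_sqrt (show 0 ≤ ((p - s) / 2) ^ 2 + q ^ 2 by positivity)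
  unfold gm gp
  linear_combination -this

lemma gm_le (p q s : ℝ) : gm p q s ≤ s := by
  have h1 : |(p - s) / 2| ≤ √(((p - s) / 2) ^ 2 + q ^ 2) :=
    Real.abs_le_sqrt (by nlinarith [sq_nonneg q])
  have h2 := le_abs_self ((p - s) / 2)
  unfold gm
  linarith

lemma gm_add_gp (p q s : ℝ) : gm p q s + gp p q s = p + s := by unfold gm gp; ring

/-- the differentiable part -/
noncomputable def G (A C u K η : ℝ) : ℝ :=
  Real.negMulLog (((L1 (u + K * η) * A / (1 + η) + L2 (u + K * η) * C)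
      + L1 (u + K * η) * η / (1 + η)) / 2
    + √((((L1 (u + K * η) * A / (1 + η) + L2 (u + K * η) * C)
      - L1 (u + K * η) * η / (1 + η)) / 2) ^ 2 + L1 (u + K * η) ^ 2 * A * η / (1 + η) ^ 2))
  + Real.negMulLog (L1 (u + K * η) * C / (1 + η) + L2 (u + K * η) * A)
  - Real.negMulLog (L1 (u + K * η)) - Real.negMulLog (L2 (u + K * η))

lemma G_zero {A C u K : ℝ} (hA : 0 ≤ A) (hC : 0 ≤ C) : G A C u K 0 =
    Real.negMulLog (L1 u * A + L2 u * C) + Real.negMulLog (L1 u * C + L2 u * A)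
      - Real.negMulLog (L1 u) - Real.negMulLog (L2 u) := by
  have h1 := (L1_pos u).le
  have h2 := L2_nonneg u
  have h3 : 0 ≤ L1 u * A + L2 u * C := by positivity
  have h4 : √(((L1 u * A + L2 u * C) / 2) ^ 2) = (L1 u * A + L2 u * C) / 2 :=
    Real.sqrt_sq (by linarith)
  unfold G
  simp only [mul_zero, add_zero, div_one, zero_div, sub_zero, h4]
  rw [add_halves]

lemma G_diff {A C u K : ℝ} (hA : 0 < A) (hC : 0 < C) (hu0 : 0 < u) (hu1 : u < 1) :
    DifferentiableAt ℝ (G A C u K) 0 := by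
  have hu2 : u ^ 2 < 1 := by nlinarith
  have hL1 : DifferentiableAt ℝ (fun η => L1 (u + K * η)) 0 := by
    unfold L1
    have : (1 - (u + K * 0) ^ 2) ≠ 0 := by
      simp only [mul_zero, add_zero]; linarith
    have h1 : DifferentiableAt ℝ (fun η => √(1 - (u + K * η) ^ 2)) 0 :=
      DifferentiableAt.sqrt (by fun_prop) this
    fun_prop
  have hL2 : DifferentiableAt ℝ (fun η => L2 (u + K * η)) 0 := by
    unfold L2
    have : (1 - (u + K * 0) ^ 2) ≠ 0 := by
      simp only [mul_zero, add_zero]; linarith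
    have h1 : DifferentiableAt ℝ (fun η => √(1 - (u + K * η) ^ 2)) 0 :=
      DifferentiableAt.sqrt (by fun_prop) this
    fun_prop
  have hL1p := L1_pos u
  have hL2p := L2_pos hu0 hu2.le
  have hν : ∀ f : ℝ → ℝ, DifferentiableAt ℝ f 0 → DifferentiableAt ℝ (fun η => f η / (1 + η)) 0 := by
    intro f hf
    exact hf.div (by fun_prop) (by norm_num)
  have hν2 : ∀ f : ℝ → ℝ, DifferentiableAt ℝ f 0 →
      DifferentiableAt ℝ (fun η => f η / (1 + η) ^ 2) 0 := by
    intro f hf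
    exact hf.div (by fun_prop) (by norm_num)
  have hP : DifferentiableAt ℝ (fun η => L1 (u + K * η) * A / (1 + η) + L2 (u + K * η) * C) 0 :=
    (hν _ (hL1.mul_const A)).add (hL2.mul_const C)
  have hR : DifferentiableAt ℝ (fun η => L1 (u + K * η) * η / (1 + η)) 0 :=
    hν _ (hL1.mul differentiableAt_id)
  have hQ : DifferentiableAt ℝ (fun η => L1 (u + K * η) ^ 2 * A * η / (1 + η) ^ 2) 0 :=
    hν2 _ (((hL1.pow 2).mul_const A).mul differentiableAt_id)
  have hP1 : DifferentiableAt ℝ (fun η => L1 (u + K * η) * C / (1 + η) + L2 (u + K * η) * A) 0 :=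
    (hν _ (hL1.mul_const C)).add (hL2.mul_const A)
  have hsq : DifferentiableAt ℝ (fun η => √((((L1 (u + K * η) * A / (1 + η) + L2 (u + K * η) * C)
      - L1 (u + K * η) * η / (1 + η)) / 2) ^ 2 + L1 (u + K * η) ^ 2 * A * η / (1 + η) ^ 2)) 0 := by
    refine DifferentiableAt.sqrt ((((hP.sub hR).div_const 2).pow 2).add hQ) ?_
    simp only [mul_zero, add_zero, div_one, zero_div, sub_zero]
    positivity
  have hgp : DifferentiableAt ℝ (fun η => ((L1 (u + K * η) * A / (1 + η) + L2 (u + K * η) * C)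
      + L1 (u + K * η) * η / (1 + η)) / 2
    + √((((L1 (u + K * η) * A / (1 + η) + L2 (u + K * η) * C)
      - L1 (u + K * η) * η / (1 + η)) / 2) ^ 2 + L1 (u + K * η) ^ 2 * A * η / (1 + η) ^ 2)) 0 :=
    ((hP.add hR).div_const 2).add hsq
  have hnm : ∀ f : ℝ → ℝ, DifferentiableAt ℝ f 0 → f 0 ≠ 0 →
      DifferentiableAt ℝ (fun η => Real.negMulLog (f η)) 0 := by
    intro f hf h0
    exact (Real.differentiableAt_negMulLog_iff.mpr h0).comp 0 hf
  unfold G
  refine (((hnm _ hgp ?_).add (hnm _ hP1 ?_)).sub (hnm _ hL1 ?_)).sub (hnm _ hL2 ?_)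
  · simp only [mul_zero, add_zero, div_one, zero_div, sub_zero]
    positivity
  · simp only [mul_zero, add_zero, div_one]
    positivity
  · simp only [mul_zero, add_zero]
    exact hL1p.ne'
  · simp only [mul_zero, add_zero]
    exact hL2p.ne'

lemma core {A C u K : ℝ} (hA : 0 < A) (hC : 0 < C) (hAC : A + C = 1) (hu0 : 0 < u) (hu1 : u < 1)
    (hK : 0 ≤ K) : ∀ᶠ η in 𝓝[>] (0 : ℝ), G A C u K 0 <
      Real.negMulLog (gp (L1 (u + K * η) * A / (1 + η) + L2 (u + K * η) * C)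
          (L1 (u + K * η) * √A * √η / (1 + η)) (L1 (u + K * η) * η / (1 + η)))
      + Real.negMulLog (gm (L1 (u + K * η) * A / (1 + η) + L2 (u + K * η) * C)
          (L1 (u + K * η) * √A * √η / (1 + η)) (L1 (u + K * η) * η / (1 + η)))
      + Real.negMulLog (L1 (u + K * η) * C / (1 + η) + L2 (u + K * η) * A)
      - (Real.negMulLog (L1 (u + K * η)) + Real.negMulLog (L2 (u + K * η))) := by
  obtain ⟨M, hM⟩ := (G_diff (K := K) hA hC hu0 hu1).isBigO_sub.bound
  have hM' := hM.filter_mono (nhdsWithin_le_nhds (s := Set.Ioi (0:ℝ)))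
  have hC1 : C ≤ 1 := by linarith
  set κ := u ^ 2 * C / 8 with hκ
  have hκpos : 0 < κ := by positivity
  have hlog : ∀ᶠ η in 𝓝[>] (0 : ℝ), Real.log η < -(M / κ) - 1 :=
    Real.tendsto_log_nhdsGT_zero.eventually (eventually_lt_atBot _)
  have hU : ∀ᶠ η in 𝓝[>] (0 : ℝ), u + K * η < 1 := by
    have h1 : Tendsto (fun η : ℝ => u + K * η) (𝓝 0) (𝓝 (u + K * 0)) := by
      apply Continuous.tendsto; fun_prop
    rw [mul_zero, add_zero] at h1
    exact (h1.eventually (eventually_lt_nhds hu1)).filter_mono nhdsWithin_le_nhds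
  have hη1 : ∀ᶠ η in 𝓝[>] (0 : ℝ), η < 1 :=
    (eventually_lt_nhds one_pos).filter_mono nhdsWithin_le_nhds
  filter_upwards [hM', hlog, hU, hη1, self_mem_nhdsWithin] with η hMη hlogη hUη hη1 hηpos
  have hη : 0 < η := hηpos
  set U := u + K * η with hUdef
  have hKη : 0 ≤ K * η := by positivity
  have hUu : u ≤ U := by linarith
  have hU2 : U ^ 2 ≤ 1 := by nlinarith
  have hL1p := L1_pos U
  have hL2p := L2_pos (by linarith : 0 < U) hU2
  have hL1L2 := L1_mul_L2 hU2
  have hL12 := L1_add_L2 U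
  set P := L1 U * A / (1 + η) + L2 U * C with hP
  set Q := L1 U * √A * √η / (1 + η) with hQ
  set Rr := L1 U * η / (1 + η) with hRr
  have hν : 0 < 1 + η := by linarith
  have hQ2 : Q ^ 2 = L1 U ^ 2 * A * η / (1 + η) ^ 2 := by
    rw [hQ, div_pow, mul_pow, mul_pow, Real.sq_sqrt hA.le, Real.sq_sqrt hη.le]
  have hGη : G A C u K η = Real.negMulLog (gp P Q Rr)
      + Real.negMulLog (L1 U * C / (1 + η) + L2 U * A)
      - Real.negMulLog (L1 U) - Real.negMulLog (L2 U) := by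
    unfold G gp
    rw [hQ2]
  -- the small eigenvalue
  have hdet : P * Rr - Q ^ 2 = L1 U * L2 U * C * η / (1 + η) := by
    rw [hQ2, hP, hRr]
    field_simp
    ring
  have hdetpos : 0 < P * Rr - Q ^ 2 := by rw [hdet]; positivity
  have hprod := gm_mul_gp P Q Rr
  have hPpos : 0 < P := by positivity
  have hRpos : 0 < Rr := by positivity
  have hgp_pos : 0 < gp P Q Rr := by
    unfold gp
    have := Real.sqrt_nonneg (((P - Rr) / 2) ^ 2 + Q ^ 2)
    linarith
  have hgm_pos : 0 < gm P Q Rr := by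
    have h : 0 < gm P Q Rr * gp P Q Rr := by rw [hprod]; exact hdetpos
    exact (mul_pos_iff_of_pos_right hgp_pos).mp h
  have hsum := gm_add_gp P Q Rr
  have hPR : P + Rr ≤ 1 := by
    have h1 : P + Rr = L1 U * ((A + η) / (1 + η)) + L2 U * C := by
      rw [hP, hRr]; field_simp; ring
    have h2 : (A + η) / (1 + η) ≤ 1 := by
      rw [div_le_one hν]; linarith
    rw [h1]
    nlinarith
  have hgp1 : gp P Q Rr ≤ 1 := by linarith
  have hgm_ge : κ * η ≤ gm P Q Rr := by
    have h1 : gm P Q Rr * gp P Q Rr ≤ gm P Q Rr * 1 :=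
      mul_le_mul_of_nonneg_left hgp1 hgm_pos.le
    have h2 : κ * η ≤ P * Rr - Q ^ 2 := by
      rw [hdet, hL1L2, le_div_iff₀ hν, hκ]
      have h3 : u ^ 2 ≤ U ^ 2 := by nlinarith
      have h4 : u ^ 2 * C * η * (1 + η) ≤ U ^ 2 * C * η * 2 := by
        have h5 : u ^ 2 * (C * η) ≤ U ^ 2 * (C * η) :=
          mul_le_mul_of_nonneg_right h3 (by positivity)
        have h6 : 0 ≤ u ^ 2 * (C * η) := by positivity
        nlinarith
      linarith
    linarith
  have hgm_le : gm P Q Rr ≤ η := by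
    refine (gm_le P Q Rr).trans ?_
    rw [hRr, div_le_iff₀ hν]
    have := L1_le_one U
    nlinarith
  have hneg : κ * η * (-Real.log η) ≤ Real.negMulLog (gm P Q Rr) := by
    have h1 : Real.log (gm P Q Rr) ≤ Real.log η := Real.log_le_log hgm_pos hgm_le
    have h2 : Real.log η ≤ 0 := Real.log_nonpos hη.le hη1.le
    have h3 : κ * η * (-Real.log η) ≤ gm P Q Rr * (-Real.log η) :=
      mul_le_mul_of_nonneg_right hgm_ge (by linarith)
    have h4 : gm P Q Rr * (-Real.log η) ≤ gm P Q Rr * (-Real.log (gm P Q Rr)) :=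
      mul_le_mul_of_nonneg_left (by linarith) hgm_pos.le
    rw [Real.negMulLog]
    linarith
  have hbig : M * η < κ * η * (-Real.log η) := by
    have h1 : M / κ < -Real.log η := by linarith
    have h2 : M < κ * (-Real.log η) := by
      rw [div_lt_iff₀ hκpos] at h1
      linarith
    nlinarith
  rw [Real.norm_eq_abs, Real.norm_eq_abs, sub_zero, abs_of_pos hη] at hMη
  have h5 := neg_abs_le (G A C u K η - G A C u K 0)
  linarith

lemma phi_eq {δ u : ℝ} (hδ0 : 0 < δ) (hu0 : 0 < u) (hu1 : u ≤ 1 - 2 * δ) {A C : ℝ}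
    (hA : A = (1 + √(1 - 4 * (δ / (2 * (1 - u))))) / 2)
    (hC : C = (1 - √(1 - 4 * (δ / (2 * (1 - u))))) / 2) (K : ℝ) (hA0 : 0 ≤ A) (hC0 : 0 ≤ C) :
    phi δ u = 1 - G A C u K 0 / Real.log 2 := by
  have h1u : 0 < 1 - u := by linarith
  have hs : 1 - 4 * (δ / (2 * (1 - u))) = (1 - u - 2 * δ) / (1 - u) := by
    field_simp; ring
  have hs0 : 0 ≤ 1 - 4 * (δ / (2 * (1 - u))) := by
    rw [hs]; exact div_nonneg (by linarith) h1u.le
  have hu2 : 0 ≤ 1 - u ^ 2 := by nlinarith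
  have hX : √(1 - (u ^ 2 + 2 * δ * u + 2 * δ))
      = √(1 - u ^ 2) * √(1 - 4 * (δ / (2 * (1 - u)))) := by
    rw [← Real.sqrt_mul hu2]
    congr 1
    rw [hs]
    field_simp
    ring
  rw [G_zero hA0 hC0, phi]
  unfold h
  rw [H2_eq, H2_eq, hX]
  have e1 : 1 / 2 - 1 / 2 * √(1 - u ^ 2) = L2 u := by unfold L2; ring
  have e2 : 1 - L2 u = L1 u := by have := L1_add_L2 u; linarith
  have e3 : 1 / 2 - 1 / 2 * (√(1 - u ^ 2) * √(1 - 4 * (δ / (2 * (1 - u)))))
      = L1 u * C + L2 u * A := by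
    rw [hA, hC]; unfold L1 L2; ring
  have e4 : 1 - (L1 u * C + L2 u * A) = L1 u * A + L2 u * C := by
    rw [hA, hC]; unfold L1 L2; ring
  rw [e1, e2, e3, e4]
  ring

/-- **Strict improvement of every value of the MRRW bracket.** -/
theorem exists_lt_phi {δ u : ℝ} (hδ0 : 0 < δ) (hu0 : 0 < u) (hu1 : u ≤ 1 - 2 * δ) :
    ∃ D : Data (Fin 3), 1 / 2 - δ ≤ D.T ∧ D.H / Real.log 2 < phi δ u := by
  have hlog2 : 0 < Real.log 2 := Real.log_pos one_lt_two
  have h1u : 0 < 1 - u := by linarith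
  have hu1' : u < 1 := by linarith
  set s2 := δ / (2 * (1 - u)) with hs2
  have hs2pos : 0 < s2 := by positivity
  have hs0 : 0 ≤ 1 - 4 * s2 := by
    have : 1 - 4 * s2 = (1 - u - 2 * δ) / (1 - u) := by rw [hs2]; field_simp; ring
    rw [this]; exact div_nonneg (by linarith) h1u.le
  have hsq := Real.sq_sqrt hs0
  have hsq0 := Real.sqrt_nonneg (1 - 4 * s2)
  have hsq1 : √(1 - 4 * s2) < 1 := by nlinarith
  obtain ⟨A, hA⟩ : ∃ A, A = (1 + √(1 - 4 * s2)) / 2 := ⟨_, rfl⟩
  obtain ⟨C, hC⟩ : ∃ C, C = (1 - √(1 - 4 * s2)) / 2 := ⟨_, rfl⟩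
  have hApos : 0 < A := by rw [hA]; linarith
  have hCpos : 0 < C := by rw [hC]; linarith
  have hAC : A + C = 1 := by rw [hA, hC]; ring
  have hACm : A * C = s2 := by
    rw [hA, hC]
    linear_combination -hsq / 4
  set K := 3 / s2 with hK
  have hKpos : 0 < K := by positivity
  have hKs : s2 * K = 3 := by rw [hK]; field_simp
  have hcore := core hApos hCpos hAC hu0 hu1' hKpos.le
  have hU : ∀ᶠ η in 𝓝[>] (0 : ℝ), u + K * η < 1 := by
    have h1 : Tendsto (fun η : ℝ => u + K * η) (𝓝 0) (𝓝 (u + K * 0)) := by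
      apply Continuous.tendsto; fun_prop
    rw [mul_zero, add_zero] at h1
    exact (h1.eventually (eventually_lt_nhds hu1')).filter_mono nhdsWithin_le_nhds
  have hη1 : ∀ᶠ η in 𝓝[>] (0 : ℝ), η < 1 :=
    (eventually_lt_nhds one_pos).filter_mono nhdsWithin_le_nhds
  obtain ⟨η, hcoreη, hUη, hη1, hηpos⟩ :=
    (hcore.and (hU.and (hη1.and self_mem_nhdsWithin))).exists
  have hη : 0 < η := hηpos
  have hν : 0 < 1 + η := by linarith
  have hKη : 0 < K * η := by positivity
  have hU0 : 0 < u + K * η := by linarith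
  have hU2 : (u + K * η) ^ 2 ≤ 1 := by nlinarith
  obtain ⟨D, hT, hH⟩ := exists_explicit (A := A) (C := C) (l1 := L1 (u + K * η))
    (l2 := L2 (u + K * η)) (η := η) hApos.le hCpos.le hAC (L1_pos _).le (L2_nonneg _)
    (L1_add_L2 _) hη.le
  have hb : 2 * (L1 (u + K * η) * C / (1 + η) + L2 (u + K * η) * A
      - (L1 (u + K * η) * C ^ 2 / (1 + η) ^ 2
        + 2 * √(L1 (u + K * η) * L2 (u + K * η)) * (A * C) / (1 + η)
        + L2 (u + K * η) * A ^ 2)) < δ := by
      rw [sqrt_L1L2 hU0.le hU2]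
      set l1 := L1 (u + K * η) with hl1
      set l2 := L2 (u + K * η) with hl2
      have hl1p : 0 < l1 := L1_pos _
      have hl2p : 0 ≤ l2 := L2_nonneg _
      have hl12 : l1 + l2 = 1 := L1_add_L2 _
      have i1 : 1 - η ≤ 1 / (1 + η) := by
        rw [le_div_iff₀ hν]; nlinarith
      have i2 : 1 / (1 + η) ≤ 1 := by
        rw [div_le_one hν]; linarith
      have i3 : 1 - 2 * η ≤ 1 / (1 + η) ^ 2 := by
        rw [le_div_iff₀ (by positivity)]; nlinarith [mul_pos hη hη, mul_pos (mul_pos hη hη) hη]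
      have j1 : l1 * C / (1 + η) ≤ l1 * C := by
        rw [div_le_iff₀ hν]
        have : 0 ≤ l1 * C * η := by positivity
        nlinarith
      have j2 : l1 * C ^ 2 * (1 - 2 * η) ≤ l1 * C ^ 2 / (1 + η) ^ 2 := by
        have := mul_le_mul_of_nonneg_left i3 (show 0 ≤ l1 * C ^ 2 by positivity)
        calc _ ≤ _ := this
          _ = _ := by ring
      have j3 : 2 * ((u + K * η) / 2) * (A * C) * (1 - η) ≤
          2 * ((u + K * η) / 2) * (A * C) / (1 + η) := by
        have := mul_le_mul_of_nonneg_left i1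
          (show 0 ≤ 2 * ((u + K * η) / 2) * (A * C) by positivity)
        calc _ ≤ _ := this
          _ = _ := by ring
      have k1 : l1 * C - l1 * C ^ 2 = l1 * s2 := by
        rw [← hACm]
        have : A = 1 - C := by linarith
        rw [this]; ring
      have k2 : l2 * A - l2 * A ^ 2 = l2 * s2 := by
        rw [← hACm]
        have : C = 1 - A := by linarith
        rw [this]; ring
      have hC2 : l1 * C ^ 2 ≤ 1 := by
        have hC1 : C ≤ 1 := by linarith
        have : C ^ 2 ≤ 1 := by nlinarith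
        have hl11 : l1 ≤ 1 := by linarith
        calc l1 * C ^ 2 ≤ 1 * 1 := mul_le_mul hl11 this (by positivity) (by norm_num)
          _ = 1 := by norm_num
      have hs4 : s2 ≤ 1 / 4 := by linarith
      have hδ : 2 * s2 * (1 - u) = δ := by rw [hs2]; field_simp
      rw [hACm] at j3 ⊢
      have hmain : 2 * (l1 * C / (1 + η) + l2 * A - (l1 * C ^ 2 / (1 + η) ^ 2
          + 2 * ((u + K * η) / 2) * s2 / (1 + η) + l2 * A ^ 2))
          ≤ 2 * (s2 - (u + K * η) * s2 + 2 * η * (l1 * C ^ 2) + (u + K * η) * s2 * η) := by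
        have hsum : l1 * s2 + l2 * s2 = s2 := by rw [← add_mul, hl12, one_mul]
        linarith
      refine hmain.trans_lt ?_
      have m1 : 2 * η * (l1 * C ^ 2) ≤ 2 * η := by nlinarith
      have m2 : (u + K * η) * s2 * η ≤ η * (1 / 4) := by
        have : (u + K * η) * s2 ≤ 1 * (1 / 4) :=
          mul_le_mul hUη.le hs4 hs2pos.le (by norm_num)
        nlinarith
      have m3 : (u + K * η) * s2 = u * s2 + 3 * η := by
        rw [← hKs]; ring
      rw [m3] at m2 ⊢
      linarith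
  refine ⟨D, by rw [hT]; linarith, ?_⟩
  rw [phi_eq hδ0 hu0 hu1 hA hC K hApos.le hCpos.le, hH, div_lt_iff₀ hlog2, sub_mul,
    div_mul_cancel₀ _ hlog2.ne']
  linarith

end Pool.Agent.H618R3.MW
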