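import Mathlib
import Pool.Agent.H618R3.MW.Strict

/-!
`R(δ) < B(δ)` for all `0 < δ < 1/2`.
-/

open Finset Filter Topology

namespace Pool.Agent.H618R3.MW

lemma continuous_H2 : Continuous H2 := by
  have : H2 = fun x => (Real.negMulLog x + Real.negMulLog (1 - x)) / Real.log 2 := by
    funext x; exact H2_eq x
  rw [this]
  fun_prop

lemma continuous_h : Continuous h := by
  unfold h
  exact continuous_H2.comp (by fun_prop)

lemma continuous_phi (δ : ℝ) : Continuous (phi δ) := by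
  unfold phi
  exact (continuous_const.add (continuous_h.comp (by fun_prop))).sub
    (continuous_h.comp (by fun_prop))

lemma exists_phi_le {δ : ℝ} (hδ0 : 0 < δ) (hδ1 : δ < 1 / 2) :
    ∃ u, 0 < u ∧ u ≤ 1 - 2 * δ ∧ phi δ u ≤ phi δ 0 := by
  have hlog2 : 0 < Real.log 2 := Real.log_pos one_lt_two
  -- the base point
  have hr0 : 0 < 1 - 2 * δ := by linarith
  have hr1 : 0 < √(1 - 2 * δ) := Real.sqrt_pos.mpr hr0
  have hr2 : √(1 - 2 * δ) < 1 := by
    rw [Real.sqrt_lt' one_pos]; linarith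
  set p0 := 1 / 2 - 1 / 2 * √(1 - 2 * δ) with hp0
  have hp0pos : 0 < p0 := by rw [hp0]; linarith
  have hp0lt : p0 < 1 / 2 := by rw [hp0]; linarith
  set k : ℝ → ℝ := fun u => Real.negMulLog (1 / 2 - 1 / 2 * √(1 - (u ^ 2 + 2 * δ * u + 2 * δ)))
    + Real.negMulLog (1 - (1 / 2 - 1 / 2 * √(1 - (u ^ 2 + 2 * δ * u + 2 * δ)))) with hk
  have hd1 : HasDerivAt (fun u : ℝ => 1 - (u ^ 2 + 2 * δ * u + 2 * δ)) (-(2 * δ)) 0 := by
    have h1 : HasDerivAt (fun u : ℝ => u ^ 2) (2 * (0:ℝ)) 0 := by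
      simpa using hasDerivAt_pow 2 (0:ℝ)
    have h2 : HasDerivAt (fun u : ℝ => 2 * δ * u) (2 * δ) 0 := by
      simpa using (hasDerivAt_id (0:ℝ)).const_mul (2 * δ)
    have h3 := ((h1.add h2).add_const (2 * δ)).const_sub 1
    exact h3.congr_deriv (by ring)
  have hd2 : HasDerivAt (fun u : ℝ => √(1 - (u ^ 2 + 2 * δ * u + 2 * δ)))
      (-(2 * δ) / (2 * √(1 - (0 ^ 2 + 2 * δ * 0 + 2 * δ)))) 0 :=
    hd1.sqrt (by norm_num; linarith)
  have e0 : 1 - ((0:ℝ) ^ 2 + 2 * δ * 0 + 2 * δ) = 1 - 2 * δ := by ring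
  rw [e0] at hd2
  have hd3 : HasDerivAt (fun u : ℝ => 1 / 2 - 1 / 2 * √(1 - (u ^ 2 + 2 * δ * u + 2 * δ)))
      (δ / (2 * √(1 - 2 * δ))) 0 := by
    have := (hd2.const_mul (1 / 2)).const_sub (1 / 2)
    exact this.congr_deriv (by field_simp)
  have hval : 1 / 2 - 1 / 2 * √(1 - ((0:ℝ) ^ 2 + 2 * δ * 0 + 2 * δ)) = p0 := by rw [e0]
  have hd4 : HasDerivAt k ((Real.log (1 - p0) - Real.log p0) * (δ / (2 * √(1 - 2 * δ)))) 0 := by
    have a1 : HasDerivAt Real.negMulLog (-Real.log p0 - 1)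
        (1 / 2 - 1 / 2 * √(1 - ((0:ℝ) ^ 2 + 2 * δ * 0 + 2 * δ))) := by
      rw [hval]; exact Real.hasDerivAt_negMulLog hp0pos.ne'
    have a2 : HasDerivAt Real.negMulLog (-Real.log (1 - p0) - 1)
        (1 - (1 / 2 - 1 / 2 * √(1 - ((0:ℝ) ^ 2 + 2 * δ * 0 + 2 * δ)))) := by
      rw [hval]; exact Real.hasDerivAt_negMulLog (by linarith)
    have b1 := a1.comp (0:ℝ) hd3
    have b2 := a2.comp (0:ℝ) (hd3.const_sub 1)
    have b3 := b1.add b2
    exact b3.congr_deriv (by ring)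
  set c := (Real.log (1 - p0) - Real.log p0) * (δ / (2 * √(1 - 2 * δ))) with hc
  have hcpos : 0 < c := by
    have : Real.log p0 < Real.log (1 - p0) := Real.log_lt_log hp0pos (by linarith)
    have h2 : 0 < δ / (2 * √(1 - 2 * δ)) := by positivity
    exact mul_pos (by linarith) h2
  have ht1 := hd4.tendsto_slope_zero_right
  have hev1 : ∀ᶠ t in 𝓝[>] (0:ℝ), c / 2 < t⁻¹ • (k (0 + t) - k 0) :=
    ht1.eventually (eventually_gt_nhds (by linarith))
  -- the other side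
  set g : ℝ → ℝ := fun u => 1 / (2 * (1 + √(1 - u ^ 2))) with hg
  set Ψ : ℝ → ℝ := fun u => 2 * g u * Real.negMulLog u + u * Real.negMulLog (g u) + u * g u with hΨ
  have hgc : Continuous g := by
    rw [hg]
    refine continuous_const.div (by fun_prop) fun u => ?_
    have := Real.sqrt_nonneg (1 - u ^ 2)
    positivity
  have hΨc : Continuous Ψ := by
    rw [hΨ]
    have := Real.continuous_negMulLog.comp hgc
    fun_prop
  have hΨ0 : Ψ 0 = 0 := by simp [hΨ]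
  have hev2 : ∀ᶠ t in 𝓝[>] (0:ℝ), Ψ t < c / 2 := by
    have := hΨc.tendsto 0
    rw [hΨ0] at this
    exact (this.eventually (eventually_lt_nhds (by linarith))).filter_mono nhdsWithin_le_nhds
  have hev3 : ∀ᶠ t in 𝓝[>] (0:ℝ), t < 1 - 2 * δ :=
    (eventually_lt_nhds hr0).filter_mono nhdsWithin_le_nhds
  obtain ⟨u, hu1, hu2, hu3, hu4⟩ :=
    (hev1.and (hev2.and (hev3.and self_mem_nhdsWithin))).exists
  have hu : 0 < u := hu4
  have hu1' : u ^ 2 ≤ 1 := by nlinarith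
  refine ⟨u, hu, hu3.le, ?_⟩
  have hL2 : L2 u = u ^ 2 * g u := by
    have h1 := Real.sq_sqrt (show 0 ≤ 1 - u ^ 2 by linarith)
    have h2 := Real.sqrt_nonneg (1 - u ^ 2)
    simp only [hg]
    unfold L2
    field_simp
    linear_combination -h1
  have hgpos : 0 < g u := by
    simp only [hg]
    have := Real.sqrt_nonneg (1 - u ^ 2)
    positivity
  have hent : Real.negMulLog (L2 u) + Real.negMulLog (L1 u) ≤ u * Ψ u := by
    have h1 : Real.negMulLog (L1 u) ≤ 1 - L1 u := Real.negMulLog_le_one_sub_self (L1_pos u).le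
    have h2 : 1 - L1 u = L2 u := by have := L1_add_L2 u; linarith
    have h3 : Real.negMulLog (u ^ 2) = 2 * u * Real.negMulLog u := by
      simp only [Real.negMulLog, Real.log_pow]
      push_cast
      ring
    rw [h2, hL2] at h1
    rw [hL2, Real.negMulLog_mul, h3]
    simp only [hΨ]
    nlinarith
  have hphi : ∀ v, phi δ v = 1 + h (v ^ 2) - k v / Real.log 2 := by
    intro v
    unfold phi
    congr 1
    unfold h
    rw [H2_eq]
  rw [hphi, hphi]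
  have hh0 : h ((0:ℝ) ^ 2) = 0 := by
    unfold h; rw [H2_eq]; simp
  have hhu : h (u ^ 2) ≤ u * Ψ u / Real.log 2 := by
    unfold h
    rw [H2_eq]
    have e1 : 1 / 2 - 1 / 2 * √(1 - u ^ 2) = L2 u := by unfold L2; ring
    have e2 : 1 - L2 u = L1 u := by have := L1_add_L2 u; linarith
    rw [e1, e2]
    exact div_le_div_of_nonneg_right hent hlog2.le
  rw [hh0]
  rw [zero_add, smul_eq_mul, ← div_eq_inv_mul, lt_div_iff₀ hu] at hu1
  have h5 : u * Ψ u ≤ k u - k 0 := by nlinarith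
  have h6 : u * Ψ u / Real.log 2 ≤ (k u - k 0) / Real.log 2 :=
    div_le_div_of_nonneg_right h5 hlog2.le
  rw [sub_div] at h6
  linarith

lemma Bq_le {δ : ℝ} (hδ0 : 0 < δ) {m : ℕ} (D : Data (Fin m)) (hT : 1 / 2 - δ ≤ D.T) :
    Bq δ ≤ D.H / Real.log 2 := by
  refine csInf_le ⟨R δ, ?_⟩ ⟨m, D, hT, rfl⟩
  rintro r ⟨m', D', hT', rfl⟩
  exact R_le_of_data D' hδ0 hT'

lemma R_le_Bq {δ : ℝ} (hδ0 : 0 < δ) (hδ1 : δ < 1 / 2) : R δ ≤ Bq δ := by
  obtain ⟨D, hT, -⟩ := exists_lt_phi hδ0 (u := 1 - 2 * δ) (by linarith) le_rfl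
  refine le_csInf ⟨_, 3, D, hT, rfl⟩ ?_
  rintro r ⟨m', D', hT', rfl⟩
  exact R_le_of_data D' hδ0 hT'

/-- **Strict improvement on the second McEliece–Rodemich–Rumsey–Welch bound.** -/
theorem Bq_lt_B {δ : ℝ} (hδ0 : 0 < δ) (hδ1 : δ < 1 / 2) : Bq δ < B δ := by
  have hr0 : 0 ≤ 1 - 2 * δ := by linarith
  obtain ⟨m, hm, hmin⟩ := isCompact_Icc.exists_isMinOn (Set.nonempty_Icc.mpr hr0)
    (continuous_phi δ).continuousOn
  have hlt : Bq δ < phi δ m := by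
    rcases hm.1.eq_or_lt with h0 | h0
    · obtain ⟨u, hu0, hu1, hu2⟩ := exists_phi_le hδ0 hδ1
      rw [← h0]
      obtain ⟨D, hT, hD⟩ := exists_lt_phi hδ0 hu0 hu1
      exact ((Bq_le hδ0 D hT).trans_lt hD).trans_le hu2
    · obtain ⟨D, hT, hD⟩ := exists_lt_phi hδ0 h0 hm.2
      exact (Bq_le hδ0 D hT).trans_lt hD
  refine hlt.trans_le ?_
  unfold B
  refine le_csInf ?_ ?_
  · exact (Set.nonempty_Ioc.mpr (by linarith)).image _
  · rintro _ ⟨u, hu, rfl⟩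
    exact hmin ⟨hu.1.le, hu.2⟩

lemma B_le_M1 {δ : ℝ} (hδ0 : 0 < δ) (hδ1 : δ < 1 / 2) : B δ ≤ H2 (1 / 2 - √(δ * (1 - δ))) := by
  obtain ⟨m, hm, hmin⟩ := isCompact_Icc.exists_isMinOn
    (Set.nonempty_Icc.mpr (show (0:ℝ) ≤ 1 - 2 * δ by linarith))
    (continuous_phi δ).continuousOn
  have hb : BddBelow (phi δ '' Set.Ioc 0 (1 - 2 * δ)) := by
    refine ⟨phi δ m, ?_⟩
    rintro _ ⟨u, hu, rfl⟩
    exact hmin ⟨hu.1.le, hu.2⟩
  have h1 : B δ ≤ phi δ (1 - 2 * δ) :=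
    csInf_le hb ⟨1 - 2 * δ, ⟨by linarith, le_rfl⟩, rfl⟩
  refine h1.trans (le_of_eq ?_)
  unfold phi
  have e1 : (1 - 2 * δ) ^ 2 + 2 * δ * (1 - 2 * δ) + 2 * δ = 1 := by ring
  have e2 : h 1 = 1 := by
    have hlog2 : Real.log 2 ≠ 0 := (Real.log_pos one_lt_two).ne'
    unfold h
    rw [H2_eq]
    have h3 : (1:ℝ) - 1 / 2 = 1 / 2 := by norm_num
    have h4 : Real.negMulLog (1 / 2) = Real.log 2 / 2 := by
      rw [Real.negMulLog, one_div, Real.log_inv]; ring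
    simp only [sub_self, Real.sqrt_zero, mul_zero, sub_zero, h3, h4]
    field_simp
    norm_num
  rw [e1, e2]
  unfold h
  have e3 : 1 - (1 - 2 * δ) ^ 2 = 2 ^ 2 * (δ * (1 - δ)) := by ring
  rw [e3, Real.sqrt_mul (by norm_num), Real.sqrt_sq (by norm_num)]
  have e4 : 1 / 2 - 1 / 2 * (2 * √(δ * (1 - δ))) = 1 / 2 - √(δ * (1 - δ)) := by ring
  rw [e4]
  ring

end Pool.Agent.H618R3.MW
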