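import Mathlib
import Pool.Agent.H618R3.MW.Final

/-!
The closed-form one-parameter family `R(δ) ≤ h(u²) - h(u² - (1-2δ)u)`, `1-2δ ≤ u ≤ 1`.
-/

open Finset Filter Matrix

namespace Pool.Agent.H618R3.MW

open Pool.Agent.H390R2.LP

/-- pure-state data: `ρ₀ = p |e₀⟩⟨e₀|`, `ρ₁ = q |v⟩⟨v|`, `v = (c, s)` -/
lemma exists_pure {p q c s : ℝ} (hp : 0 ≤ p) (hq : 0 ≤ q) (hpq : p + q = 1)
    (hcs : c ^ 2 + s ^ 2 = 1) : ∃ D : Data (Fin 2), D.T = √(p * q) * c ^ 2 ∧
      D.H = Real.negMulLog p + Real.negMulLog q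
        - (Real.negMulLog (gp (p + q * c ^ 2) (q * c * s) (q * s ^ 2))
          + Real.negMulLog (gm (p + q * c ^ 2) (q * c * s) (q * s ^ 2))) := by
  obtain ⟨W, hW1, hW2⟩ := exists_rot (p + q * c ^ 2) (q * c * s) (q * s ^ 2)
  refine ⟨{ x := fun i j => if i = j then 1 else 0
            y := ![![c, s], ![-s, c]]
            z := W
            a := ![p, 0]
            b := ![q, 0]
            c := ![gp (p + q * c ^ 2) (q * c * s) (q * s ^ 2),
              gm (p + q * c ^ 2) (q * c * s) (q * s ^ 2)]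
            x_orth := ?_
            y_orth := ?_
            z_orth := ?_
            a_nonneg := ?_
            b_nonneg := ?_
            sum_eq := ?_
            diag := ?_ }, ?_, ?_⟩
  · intro i j
    fin_cases i <;> fin_cases j <;> simp
  · intro i j
    fin_cases i <;> fin_cases j <;> simp [Fin.sum_univ_two] <;> nlinarith
  · intro i j
    rw [Fin.sum_univ_two]
    exact hW1 i j
  · intro i; fin_cases i <;> simpa
  · intro i; fin_cases i <;> simpa
  · simpa [Fin.sum_univ_two] using hpq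
  · intro k l
    have h := hW2 k l
    have hc : (if k = l then ![gp (p + q * c ^ 2) (q * c * s) (q * s ^ 2),
              gm (p + q * c ^ 2) (q * c * s) (q * s ^ 2)] k else 0)
        = if k = l then (if k = 0 then gp (p + q * c ^ 2) (q * c * s) (q * s ^ 2)
          else gm (p + q * c ^ 2) (q * c * s) (q * s ^ 2)) else 0 := by
      fin_cases k <;> simp
    rw [hc, ← h]
    simp [Fin.sum_univ_two]
    ring
  · simp [Data.T, Fin.sum_univ_two]
  · simp [Data.H, Fin.sum_univ_two]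

/-- **Closed form.** For `1 - 2δ ≤ u ≤ 1`, `R(δ) ≤ h(u²) - h(u² - (1-2δ)u)`. -/
theorem R_le_F {δ u : ℝ} (hδ0 : 0 < δ) (hδ1 : δ < 1 / 2) (hu0 : 1 - 2 * δ ≤ u) (hu1 : u ≤ 1) :
    R δ ≤ h (u ^ 2) - h (u ^ 2 - (1 - 2 * δ) * u) := by
  have hu : 0 < u := by linarith
  have hu2 : u ^ 2 ≤ 1 := by nlinarith
  set r := (1 - 2 * δ) / u with hr
  have hr0 : 0 ≤ r := div_nonneg (by linarith) hu.le
  have hr1 : r ≤ 1 := by rw [hr, div_le_one hu]; exact hu0
  have hru : r * u = 1 - 2 * δ := by rw [hr]; field_simp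
  have hc : √r ^ 2 = r := Real.sq_sqrt hr0
  have hs : √(1 - r) ^ 2 = 1 - r := Real.sq_sqrt (by linarith)
  have hp := (L1_pos u).le
  have hq := L2_nonneg u
  have hpq := L1_add_L2 u
  have hpqm := L1_mul_L2 hu2
  obtain ⟨D, hT, hH⟩ := exists_pure (p := L1 u) (q := L2 u) (c := √r) (s := √(1 - r)) hp hq hpq
    (by rw [hc, hs]; ring)
  have h1 := R_le_of_data D hδ0 (by
    rw [hT, sqrt_L1L2 hu.le hu2, hc]
    linarith)
  refine h1.trans (le_of_eq ?_)
  rw [hH]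
  have hdisc : ((L1 u + L2 u * √r ^ 2 - L2 u * √(1 - r) ^ 2) / 2) ^ 2
      + (L2 u * √r * √(1 - r)) ^ 2 = (1 / 2) ^ 2 * (1 - (u ^ 2 - (1 - 2 * δ) * u)) := by
    rw [mul_pow, mul_pow, hc, hs]
    have e1 : L1 u = 1 - L2 u := by linarith
    rw [e1] at hpqm ⊢
    rw [← hru]
    linear_combination (-(1 - r)) * hpqm
  have e2 : √((1 / 2) ^ 2 * (1 - (u ^ 2 - (1 - 2 * δ) * u)))
      = 1 / 2 * √(1 - (u ^ 2 - (1 - 2 * δ) * u)) := by
    rw [Real.sqrt_mul (by positivity), Real.sqrt_sq (by norm_num)]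
  have hgp : gp (L1 u + L2 u * √r ^ 2) (L2 u * √r * √(1 - r)) (L2 u * √(1 - r) ^ 2)
      = 1 - (1 / 2 - 1 / 2 * √(1 - (u ^ 2 - (1 - 2 * δ) * u))) := by
    unfold gp
    rw [hdisc, e2, hc, hs]
    have e1 : L1 u = 1 - L2 u := by linarith
    rw [e1]; ring
  have hgm : gm (L1 u + L2 u * √r ^ 2) (L2 u * √r * √(1 - r)) (L2 u * √(1 - r) ^ 2)
      = 1 / 2 - 1 / 2 * √(1 - (u ^ 2 - (1 - 2 * δ) * u)) := by
    unfold gm
    rw [hdisc, e2, hc, hs]
    have e1 : L1 u = 1 - L2 u := by linarith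
    rw [e1]; ring
  rw [hgp, hgm]
  unfold h
  rw [H2_eq, H2_eq]
  have e3 : 1 / 2 - 1 / 2 * √(1 - u ^ 2) = L2 u := by unfold L2; ring
  have e4 : 1 - L2 u = L1 u := by linarith
  rw [e3, e4]
  ring

end Pool.Agent.H618R3.MW
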